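import Pool.Agent.Run7.h559.Point

set_option autoImplicit false
open scoped Classical

/-!
# Maximal chains of the trapezoid lattice, via Thrall's formula
-/

open Finset

namespace Pool.Agent.Run7.h559

theorem G_zero (m : ℕ) : G (0 : Fin m → ℕ) = 1 := by
  simp [G, pairProd, r]

theorem G_eq_zero {m : ℕ} (κ : Fin m → ℕ) (a b : Fin m) (hab : a < b) (h : κ a = κ b)
    (h0 : κ b ≠ 0) : G κ = 0 := by
  unfold G pairProd
  have : (∏ x, ∏ y, if x < y then r (κ x) (κ y) else 1) = 0 := by
    apply prod_eq_zero (mem_univ a)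
    apply prod_eq_zero (mem_univ b)
    rw [if_pos hab, r, if_neg h0, h, sub_self, zero_div]
  rw [this, mul_zero]

theorem sum_dec {m : ℕ} (κ : Fin m → ℕ) (i : Fin m) (h : 0 < κ i) :
    ∑ j, dec κ i j + 1 = ∑ j, κ j := by
  rw [← add_sum_erase univ _ (mem_univ i), ← add_sum_erase univ κ (mem_univ i)]
  have : ∑ j ∈ univ.erase i, dec κ i j = ∑ j ∈ univ.erase i, κ j :=
    sum_congr rfl fun j hj => dec_ne _ (mem_erase.mp hj).1
  rw [this, dec_self]; omega

theorem not_val_dec (n : ℕ) {m : ℕ} (κ : Fin m → ℕ) (h : Val n κ) (i : Fin m) (h0 : 0 < κ i)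
    (hd : ¬ Val n (dec κ i)) : ∃ a b, a < b ∧ dec κ i a = dec κ i b ∧ dec κ i b ≠ 0 := by
  rw [Val_dec_iff n κ h i h0] at hd
  push Not at hd
  obtain ⟨b, hb, h1, h2⟩ := hd
  refine ⟨i, b, hb, ?_, ?_⟩
  · rw [dec_self, dec_ne _ (ne_of_gt hb)]
    have := h.2 i b hb
    omega
  · rw [dec_ne _ (ne_of_gt hb)]; exact h1

theorem pc_eq_G (n : ℕ) {m : ℕ} (L : ℕ) : ∀ κ : Fin m → ℕ, Val n κ → ∑ i, κ i = L →
    pc (Val n) L κ = G κ := by
  induction L with
  | zero =>
    intro κ _ hs
    have : κ = 0 := by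
      funext i
      exact (Finset.sum_eq_zero_iff.mp hs) i (mem_univ i)
    rw [this, G_zero, pc_zero, if_pos rfl]
  | succ L ih =>
    intro κ hκ hs
    rw [pc_succ, if_pos hκ, ← G_rec κ hκ.2 (by omega)]
    refine sum_congr rfl fun i _ => ?_
    by_cases h0 : 0 < κ i
    · rw [if_pos h0, if_pos h0]
      by_cases hd : Val n (dec κ i)
      · exact ih _ hd (by have := sum_dec κ i h0; omega)
      · rw [pc_not (Val_zero n m) _ _ hd]
        obtain ⟨a, b, h1, h2, h3⟩ := not_val_dec n κ hκ i h0 hd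
        exact (G_eq_zero _ a b h1 h2 h3).symm
    · rw [if_neg h0, if_neg h0]

theorem pairProd_snoc {m : ℕ} (κ : Fin m → ℕ) (c : ℕ) :
    pairProd (fun a b => r ((Fin.snoc κ c : Fin (m + 1) → ℕ) a) ((Fin.snoc κ c : Fin (m + 1) → ℕ) b))
      = pairProd (fun a b => r (κ a) (κ b)) * ∏ i, r (κ i) c := by
  unfold pairProd
  rw [Fin.prod_univ_castSucc]
  have h1 : (∏ b, if (Fin.last m) < b then
      r ((Fin.snoc κ c : Fin (m + 1) → ℕ) (Fin.last m)) ((Fin.snoc κ c : Fin (m + 1) → ℕ) b) else 1)
      = 1 := by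
    apply prod_eq_one
    intro b _
    rw [if_neg (not_lt.mpr (Fin.le_last b))]
  rw [h1, mul_one, ← prod_mul_distrib]
  refine prod_congr rfl fun a _ => ?_
  rw [Fin.prod_univ_castSucc]
  simp

theorem G_snoc_zero {m : ℕ} (κ : Fin m → ℕ) : G (Fin.snoc κ 0 : Fin (m + 1) → ℕ) = G κ := by
  unfold G
  rw [pairProd_snoc]
  simp [Fin.sum_univ_castSucc, Fin.prod_univ_castSucc, r]

theorem G_snoc_one {m : ℕ} (κ : Fin m → ℕ) : G (Fin.snoc κ 1 : Fin (m + 1) → ℕ)
    = (((∑ i, κ i : ℕ) : ℚ) + 1) * G κ * ∏ i, r (κ i) 1 := by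
  unfold G
  rw [pairProd_snoc]
  have h1 : ∑ i, (Fin.snoc κ 1 : Fin (m + 1) → ℕ) i = ∑ i, κ i + 1 := by
    simp [Fin.sum_univ_castSucc]
  have h2 : ∏ i, (((Fin.snoc κ 1 : Fin (m + 1) → ℕ) i).factorial : ℚ)
      = ∏ i, ((κ i).factorial : ℚ) := by
    simp [Fin.prod_univ_castSucc]
  rw [h1, h2, Nat.factorial_succ]
  push_cast
  ring

theorem dec_snoc_castSucc {m : ℕ} (κ : Fin m → ℕ) (c : ℕ) (i : Fin m) :
    dec (Fin.snoc κ c : Fin (m + 1) → ℕ) i.castSucc = Fin.snoc (dec κ i) c := by
  unfold dec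
  rw [Fin.snoc_update]
  simp

theorem dec_snoc_last {m : ℕ} (κ : Fin m → ℕ) (c : ℕ) :
    dec (Fin.snoc κ c : Fin (m + 1) → ℕ) (Fin.last m) = Fin.snoc κ (c - 1) := by
  unfold dec
  rw [Fin.update_snoc_last]
  simp

/-- indicator that the last part is at least 2 -/
noncomputable def Cf (k : ℕ) (μ : Fin (k + 1) → ℕ) : ℚ := if 2 ≤ μ (Fin.last k) then 1 else 0

theorem Phi_C (n k : ℕ) (L : ℕ) : ∀ κ : Fin (k + 1) → ℕ, Val n κ → ∑ i, κ i = L →
    Phi (Val n) (Cf k) L κ
      = if 2 ≤ κ (Fin.last k) then G (Fin.snoc κ 1 : Fin (k + 2) → ℕ) else 0 := by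
  induction L with
  | zero =>
    intro κ _ hs
    have : κ = 0 := by
      funext i
      exact (Finset.sum_eq_zero_iff.mp hs) i (mem_univ i)
    rw [this, Phi_zero, if_pos rfl]
    simp [Cf]
  | succ L ih =>
    intro κ hκ hs
    by_cases h2 : 2 ≤ κ (Fin.last k)
    · rw [if_pos h2, Phi_succ, if_pos hκ]
      have hstr : Str (Fin.snoc κ 1 : Fin (k + 2) → ℕ) := by
        intro a b hab
        induction b using Fin.lastCases with
        | last =>
          induction a using Fin.lastCases with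
          | last => exact absurd hab (lt_irrefl _)
          | cast a =>
            right
            simp only [Fin.snoc_last, Fin.snoc_castSucc]
            rcases lt_or_eq_of_le (Fin.le_last a) with h | h
            · have := hκ.2 a _ h
              omega
            · rw [h]; omega
        | cast b =>
          induction a using Fin.lastCases with
          | last => exact absurd hab (not_lt.mpr (Fin.le_last _))
          | cast a =>
            simp only [Fin.snoc_castSucc]
            exact hκ.2 a b (by simpa using hab)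
      have hrec := G_rec (Fin.snoc κ 1 : Fin (k + 2) → ℕ) hstr (by
        rw [Fin.sum_univ_castSucc]; simp)
      have q1 : ∀ i : Fin (k + 1), (if 0 < κ i then Phi (Val n) (Cf k) L (dec κ i) else 0)
          = (if 0 < (Fin.snoc κ 1 : Fin (k + 2) → ℕ) i.castSucc then
              G (Function.update (Fin.snoc κ 1 : Fin (k + 2) → ℕ) i.castSucc
                ((Fin.snoc κ 1 : Fin (k + 2) → ℕ) i.castSucc - 1)) else 0) := by
        intro i
        rw [Fin.snoc_castSucc]
        by_cases h0 : 0 < κ i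
        · rw [if_pos h0, if_pos h0]
          have e1 : Function.update (Fin.snoc κ 1 : Fin (k + 2) → ℕ) i.castSucc (κ i - 1)
              = Fin.snoc (dec κ i) 1 := by
            rw [← dec_snoc_castSucc]; unfold dec; rw [Fin.snoc_castSucc]
          rw [e1]
          by_cases hd : Val n (dec κ i)
          · rw [ih _ hd (by have := sum_dec κ i h0; omega)]
            by_cases h3 : 2 ≤ dec κ i (Fin.last k)
            · rw [if_pos h3]
            · rw [if_neg h3]
              symm
              have hi : i = Fin.last k := by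
                by_contra hi
                rw [dec_ne _ (Ne.symm hi)] at h3
                exact h3 h2
              refine G_eq_zero _ (Fin.last k).castSucc (Fin.last (k + 1)) (Fin.castSucc_lt_last _) ?_ ?_
              · rw [Fin.snoc_castSucc, Fin.snoc_last]
                rw [← hi, dec_self] at h3 ⊢
                rw [← hi] at h2
                omega
              · rw [Fin.snoc_last]; norm_num
          · rw [Phi_not (Val_zero n _) _ _ _ hd]
            obtain ⟨a, b, h1, h2, h3⟩ := not_val_dec n κ hκ i h0 hd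
            symm
            refine G_eq_zero _ a.castSucc b.castSucc (by simpa using h1) ?_ ?_
            · rw [Fin.snoc_castSucc, Fin.snoc_castSucc, h2]
            · rw [Fin.snoc_castSucc]; exact h3
        · rw [if_neg h0, if_neg h0]
      have q2 : Cf k κ * pc (Val n) (L + 1) κ
          = (if 0 < (Fin.snoc κ 1 : Fin (k + 2) → ℕ) (Fin.last (k + 1)) then
              G (Function.update (Fin.snoc κ 1 : Fin (k + 2) → ℕ) (Fin.last (k + 1))
                ((Fin.snoc κ 1 : Fin (k + 2) → ℕ) (Fin.last (k + 1)) - 1)) else 0) := by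
        rw [Fin.snoc_last, if_pos Nat.one_pos]
        have e2 : Function.update (Fin.snoc κ 1 : Fin (k + 2) → ℕ) (Fin.last (k + 1)) (1 - 1)
            = Fin.snoc κ 0 := by
          rw [Fin.update_snoc_last]
        rw [e2, G_snoc_zero, pc_eq_G n (L + 1) κ hκ hs, Cf, if_pos h2, one_mul]
      rw [← hrec, q2, Finset.sum_congr rfl (fun i _ => q1 i)]
      exact (Fin.sum_univ_castSucc (fun j : Fin (k + 2) =>
        if 0 < (Fin.snoc κ 1 : Fin (k + 2) → ℕ) j then
          G (Function.update (Fin.snoc κ 1 : Fin (k + 2) → ℕ) j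
            ((Fin.snoc κ 1 : Fin (k + 2) → ℕ) j - 1)) else 0)).symm
    · rw [if_neg h2]
      refine Phi_vanish (Val_zero n _) _ _ _ fun ν hν _ => ?_
      have : ν (Fin.last k) ≤ κ (Fin.last k) := hν _
      rw [Cf, if_neg (by omega)]

/-- the top element -/
def Top (n k : ℕ) : Fin (k + 1) → ℕ := fun i => n - 2 * (i : ℕ)

theorem Top_val (n k : ℕ) (hk : 2 * k < n) : Val n (Top n k) := by
  refine ⟨fun i => le_rfl, fun i j hij => ?_⟩
  right
  unfold Top
  have hi := i.2
  have hj := j.2
  rw [Fin.lt_def] at hij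
  omega

theorem G_Top_ne_zero (n k : ℕ) (hk : 2 * k < n) : G (Top n k) ≠ 0 := by
  unfold G
  refine mul_ne_zero (div_ne_zero (by positivity) ?_) ?_
  · exact prod_ne_zero_iff.mpr fun i _ => by positivity
  · unfold pairProd
    refine prod_ne_zero_iff.mpr fun a _ => prod_ne_zero_iff.mpr fun b _ => ?_
    by_cases hab : a < b
    · rw [if_pos hab]
      show r (Top n k a) (Top n k b) ≠ 0
      unfold r
      have h1 : Top n k b ≠ 0 := by unfold Top; have := b.2; omega
      have h2 : Top n k b < Top n k a := by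
        rcases (Top_val n k hk).2 a b hab with h | h
        · exact absurd h h1
        · exact h
      rw [if_neg h1]
      have h3 : (Top n k b : ℚ) < Top n k a := by exact_mod_cast h2
      have h4 : (0 : ℚ) ≤ Top n k b := by positivity
      have h5 : (0 : ℚ) < Top n k a + Top n k b := by linarith
      exact div_ne_zero (sub_ne_zero.mpr (ne_of_gt h3)) (ne_of_gt h5)
    · rw [if_neg hab]; norm_num

theorem prod_Top (n : ℕ) (k : ℕ) (hk : 2 * k < n) :
    ∏ i : Fin (k + 1), r (n - 2 * (i : ℕ)) 1 = ((n : ℚ) - 2 * k - 1) / (n + 1) := by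
  induction k with
  | zero =>
    simp [r]
  | succ k ih =>
    rw [Fin.prod_univ_castSucc]
    have := ih (by omega)
    simp only [Fin.val_castSucc, Fin.val_last]
    rw [this, r, if_neg (by norm_num), Nat.cast_sub (by omega)]
    push_cast
    have h1 : (n : ℚ) + 1 ≠ 0 := by positivity
    have h2 : (n : ℚ) - 2 * (k + 1) + 1 ≠ 0 := by
      have : (2 * (k + 1) : ℚ) < n := by exact_mod_cast hk
      have : (0 : ℚ) < (n : ℚ) - 2 * (k + 1) + 1 := by linarith
      exact ne_of_gt this
    field_simp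
    ring

theorem Phi_C_Top (n k : ℕ) (hk : 2 * k < n) (N : ℕ) (hN : ∑ i, Top n k i = N) :
    Phi (Val n) (Cf k) N (Top n k)
      = ((N : ℚ) + 1) * pc (Val n) N (Top n k) * (((n : ℚ) - 2 * k - 1) / (n + 1)) := by
  rw [Phi_C n k N _ (Top_val n k hk) hN, pc_eq_G n N _ (Top_val n k hk) hN, G_snoc_one, hN]
  have h1 : ∏ i, r (Top n k i) 1 = ((n : ℚ) - 2 * k - 1) / (n + 1) := prod_Top n k hk
  rw [h1]
  by_cases h2 : 2 ≤ Top n k (Fin.last k)
  · rw [if_pos h2]
  · rw [if_neg h2]
    have h3 : n = 2 * k + 1 := by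
      unfold Top at h2
      rw [Fin.val_last] at h2
      omega
    rw [h3]
    push_cast
    ring

theorem pc_Top_ne_zero (n k : ℕ) (hk : 2 * k < n) (N : ℕ) (hN : ∑ i, Top n k i = N) :
    pc (Val n) N (Top n k) ≠ 0 := by
  rw [pc_eq_G n N _ (Top_val n k hk) hN]
  exact G_Top_ne_zero n k hk

end Pool.Agent.Run7.h559
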