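import Pool.Agent.Run7.h559.Point

set_option autoImplicit false
open scoped Classical

/-!
# Counting the elements of the trapezoid lattice
-/

open Finset

namespace Pool.Agent.Run7.h559

/-- all strict partitions inside the trapezoid, with `m` rows -/
noncomputable def Jset (n m : ℕ) : Finset (Fin m → ℕ) :=
  (Fintype.piFinset (fun _ : Fin m => range (n + 1))).filter (Val n)

theorem mem_Jset (n m : ℕ) (μ : Fin m → ℕ) : μ ∈ Jset n m ↔ Val n μ := by
  unfold Jset
  rw [mem_filter, Fintype.mem_piFinset]
  constructor
  · exact fun h => h.2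
  · intro h
    refine ⟨fun i => ?_, h⟩
    have := h.1 i
    rw [mem_range]; omega

theorem Val_init (n m : ℕ) (μ : Fin (m + 1) → ℕ) (h : Val n μ) : Val n (Fin.init μ) := by
  refine ⟨fun i => ?_, fun i j hij => ?_⟩
  · have := h.1 i.castSucc
    simpa [Fin.init] using this
  · have := h.2 i.castSucc j.castSucc (by simpa using hij)
    simpa [Fin.init] using this

theorem fiber_pos (n k a : ℕ) (ha : 1 ≤ a) (ha2 : a ≤ n - 2 * (k + 1)) :
    #((Jset n (k + 2)).filter (fun μ => μ (Fin.last (k + 1)) = a))
      = #((Jset n (k + 1)).filter (fun μ => a < μ (Fin.last k))) := by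
  refine card_nbij' (fun μ => (Fin.init μ : Fin (k + 1) → ℕ))
    (fun μ => (Fin.snoc μ a : Fin (k + 2) → ℕ)) ?_ ?_ ?_ ?_
  · intro μ hμ
    rw [mem_coe, mem_filter, mem_Jset] at hμ ⊢
    refine ⟨Val_init n _ μ hμ.1, ?_⟩
    have := hμ.1.2 (Fin.last k).castSucc (Fin.last (k + 1)) (Fin.castSucc_lt_last _)
    show a < μ (Fin.last k).castSucc
    omega
  · intro μ hμ
    rw [mem_coe, mem_filter, mem_Jset] at hμ ⊢
    refine ⟨⟨fun i => ?_, fun i j hij => ?_⟩, by simp⟩
    · induction i using Fin.lastCases with
      | last => simpa using ha2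
      | cast i => simpa using hμ.1.1 i
    · induction j using Fin.lastCases with
      | last =>
        induction i using Fin.lastCases with
        | last => exact absurd hij (lt_irrefl _)
        | cast i =>
          right
          simp only [Fin.snoc_last, Fin.snoc_castSucc]
          rcases lt_or_eq_of_le (Fin.le_last i) with h | h
          · have := hμ.1.2 i _ h
            omega
          · rw [h]; exact hμ.2
      | cast j =>
        induction i using Fin.lastCases with
        | last => exact absurd hij (not_lt.mpr (Fin.le_last _))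
        | cast i =>
          simp only [Fin.snoc_castSucc]
          exact hμ.1.2 i j (by simpa using hij)
  · intro μ hμ
    rw [mem_coe, mem_filter] at hμ
    show (Fin.snoc (Fin.init μ) a : Fin (k + 2) → ℕ) = μ
    rw [← hμ.2]
    exact Fin.snoc_init_self μ
  · intro μ _
    exact Fin.init_snoc (α := fun _ => ℕ) a μ

theorem fiber_zero (n k : ℕ) :
    #((Jset n (k + 2)).filter (fun μ => μ (Fin.last (k + 1)) = 0)) = #(Jset n (k + 1)) := by
  refine card_nbij' (fun μ => (Fin.init μ : Fin (k + 1) → ℕ))
    (fun μ => (Fin.snoc μ 0 : Fin (k + 2) → ℕ)) ?_ ?_ ?_ ?_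
  · intro μ hμ
    rw [mem_coe, mem_filter, mem_Jset] at hμ
    rw [mem_coe, mem_Jset]
    exact Val_init n _ μ hμ.1
  · intro μ hμ
    rw [mem_coe, mem_Jset] at hμ
    rw [mem_coe, mem_filter, mem_Jset]
    refine ⟨⟨fun i => ?_, fun i j hij => ?_⟩, by simp⟩
    · induction i using Fin.lastCases with
      | last => simp
      | cast i => simpa using hμ.1 i
    · induction j using Fin.lastCases with
      | last => left; simp
      | cast j =>
        induction i using Fin.lastCases with
        | last => exact absurd hij (not_lt.mpr (Fin.le_last _))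
        | cast i =>
          simp only [Fin.snoc_castSucc]
          exact hμ.2 i j (by simpa using hij)
  · intro μ hμ
    rw [mem_coe, mem_filter] at hμ
    show (Fin.snoc (Fin.init μ) 0 : Fin (k + 2) → ℕ) = μ
    rw [← hμ.2]
    exact Fin.snoc_init_self μ
  · intro μ _
    exact Fin.init_snoc (α := fun _ => ℕ) 0 μ

theorem fiber_base (n a : ℕ) (ha : a ≤ n) :
    #((Jset n 1).filter (fun μ => μ (Fin.last 0) = a)) = 1 := by
  rw [card_eq_one]
  refine ⟨fun _ => a, ?_⟩
  ext μ
  rw [mem_filter, mem_Jset, mem_singleton]
  constructor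
  · rintro ⟨_, h⟩
    funext i
    rw [← h]
    congr 1
    exact Subsingleton.elim _ _
  · rintro rfl
    refine ⟨⟨fun i => ?_, fun i j hij => ?_⟩, rfl⟩
    · have : i = 0 := Subsingleton.elim _ _
      subst this; simpa using ha
    · exact absurd hij (by rw [Subsingleton.elim i j]; exact lt_irrefl _)

theorem tail_split (n m a : ℕ) :
    #((Jset n (m + 1)).filter (fun μ => a < μ (Fin.last m)))
      = ∑ b ∈ Ioc a (n - 2 * m), #((Jset n (m + 1)).filter (fun μ => μ (Fin.last m) = b)) := by
  rw [card_eq_sum_card_fiberwise (f := fun μ => μ (Fin.last m)) (t := Ioc a (n - 2 * m))]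
  · refine sum_congr rfl fun b hb => ?_
    congr 1
    rw [filter_filter]
    refine filter_congr fun μ _ => ?_
    have := (mem_Ioc.mp hb).1
    constructor
    · exact fun h => h.2
    · exact fun h => ⟨by omega, h⟩
  · intro μ hμ
    rw [mem_coe, mem_filter, mem_Jset] at hμ
    rw [mem_coe, mem_Ioc]
    refine ⟨hμ.2, ?_⟩
    have := hμ.1.1 (Fin.last m)
    simpa using this

theorem tail_count (n : ℕ) (k : ℕ) : 2 * k < n → ∀ a, a ≤ n - 2 * k →
    (#((Jset n (k + 1)).filter (fun μ => a < μ (Fin.last k))) : ℚ)
      = (n + 1 - a).choose (k + 1) - (n + 1 - a).choose k := by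
  induction k with
  | zero =>
    intro _ a ha
    rw [tail_split, sum_congr rfl (fun b hb => fiber_base n b (by
      have := (mem_Ioc.mp hb).2; omega))]
    simp
    rw [Nat.cast_sub (by omega), Nat.cast_sub (by omega)]
    push_cast; ring
  | succ k ih =>
    intro hk
    -- downward induction on `a`
    have key : ∀ d a, a + d = n - 2 * (k + 1) →
        (#((Jset n (k + 2)).filter (fun μ => a < μ (Fin.last (k + 1)))) : ℚ)
          = (n + 1 - a).choose (k + 2) - (n + 1 - a).choose (k + 1) := by
      intro d
      induction d with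
      | zero =>
        intro a had
        rw [tail_split]
        have : Ioc a (n - 2 * (k + 1)) = ∅ := by rw [Ioc_eq_empty]; omega
        rw [this, sum_empty]
        have h1 : n + 1 - a = 2 * (k + 1) + 1 := by omega
        rw [h1]
        have h2 : (2 * (k + 1) + 1).choose (k + 2) = (2 * (k + 1) + 1).choose (k + 1) := by
          have := Nat.choose_symm_half (k + 1)
          simpa using this
        rw [h2]; simp
      | succ d ihd =>
        intro a had
        have h1 := ihd (a + 1) (by omega)
        rw [tail_split] at h1 ⊢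
        have h2 : Ioc a (n - 2 * (k + 1)) = insert (a + 1) (Ioc (a + 1) (n - 2 * (k + 1))) := by
          ext x; rw [mem_insert, mem_Ioc, mem_Ioc]; omega
        rw [h2, sum_insert (by simp), Nat.cast_add, h1, fiber_pos n k (a + 1) (by omega) (by omega),
          ih (by omega) (a + 1) (by omega)]
        have h3 : n + 1 - a = (n + 1 - (a + 1)) + 1 := by omega
        rw [h3, Nat.choose_succ_succ, Nat.choose_succ_succ _ k]
        push_cast; ring
    intro a ha
    exact key (n - 2 * (k + 1) - a) a (by omega)

theorem Jset_card (n : ℕ) (k : ℕ) : 2 * k < n → (#(Jset n (k + 1)) : ℚ) = (n + 1).choose (k + 1) := by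
  induction k with
  | zero =>
    intro hn
    have h1 := card_filter_add_card_filter_not (s := Jset n 1) (fun μ => 0 < μ (Fin.last 0))
    have h2 : (Jset n 1).filter (fun μ => ¬ 0 < μ (Fin.last 0))
        = (Jset n 1).filter (fun μ => μ (Fin.last 0) = 0) := by
      refine filter_congr fun μ _ => ?_
      omega
    rw [h2, fiber_base n 0 (by omega)] at h1
    rw [← h1, Nat.cast_add, tail_count n 0 hn 0 (by omega)]
    simp
  | succ k ih =>
    intro hk
    have h1 := card_filter_add_card_filter_not (s := Jset n (k + 2))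
      (fun μ => 0 < μ (Fin.last (k + 1)))
    have h2 : (Jset n (k + 2)).filter (fun μ => ¬ 0 < μ (Fin.last (k + 1)))
        = (Jset n (k + 2)).filter (fun μ => μ (Fin.last (k + 1)) = 0) := by
      refine filter_congr fun μ _ => ?_
      omega
    rw [h2, fiber_zero n k] at h1
    rw [← h1, Nat.cast_add, tail_count n (k + 1) hk 0 (by omega), ih (by omega)]
    simp

theorem C_count (n k : ℕ) (hk : 2 * k < n) :
    ((n : ℚ) + 1) * #((Jset n (k + 1)).filter (fun μ => 2 ≤ μ (Fin.last k)))
      = ((n : ℚ) - 2 * k - 1) * #(Jset n (k + 1)) := by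
  have h1 : (Jset n (k + 1)).filter (fun μ => 2 ≤ μ (Fin.last k))
      = (Jset n (k + 1)).filter (fun μ => 1 < μ (Fin.last k)) := rfl
  rw [h1, tail_count n k hk 1 (by omega), Jset_card n k hk, Nat.add_sub_cancel]
  have h2 : ((n : ℚ) + 1) * n.choose k = (n + 1).choose (k + 1) * (k + 1) := by
    exact_mod_cast Nat.add_one_mul_choose_eq n k
  have h3 : ((n + 1).choose (k + 1) : ℚ) = n.choose k + n.choose (k + 1) := by
    exact_mod_cast Nat.choose_succ_succ n k
  linear_combination (-(n : ℚ) - 1) * h3 - 2 * h2

end Pool.Agent.Run7.h559
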