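import Pool.Agent.Run7.h559.Chain
import Pool.Agent.Run7.h559.Unif

set_option autoImplicit false
open scoped Classical

/-!
# The two averages of the down-degree on the trapezoid lattice
-/

open Finset

namespace Pool.Agent.Run7.h559

/-- down-degree -/
noncomputable def Dd (n : ℕ) {m : ℕ} (μ : Fin m → ℕ) : ℚ :=
  ∑ i, if 0 < μ i ∧ Val n (dec μ i) then 1 else 0

/-- toggle-out term -/
noncomputable def dnG (n : ℕ) {m : ℕ} (μ : Fin m → ℕ) (i : Fin m) : ℚ :=
  if 0 < μ i ∧ Val n (dec μ i) then gam n i (μ i - 1) else 0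

theorem four_D (n k : ℕ) (hn : 1 ≤ n) (hk : 2 * k < n) (μ : Fin (k + 1) → ℕ) (h : Val n μ) :
    4 * Dd n μ = ((n : ℚ) + 1) - ((n : ℚ) - 2 * k - 1) * Cf k μ
      + (∑ i, dnG n μ i - ∑ i, upT n μ i) := by
  have h1 := pointwise n k hn hk μ h
  have h2 : ∑ i, dnT n μ i = ∑ i, dnG n μ i - 4 * Dd n μ := by
    unfold Dd
    rw [mul_sum, ← sum_sub_distrib]
    refine sum_congr rfl fun i _ => ?_
    unfold dnT dnG
    by_cases hc : 0 < μ i ∧ Val n (dec μ i)
    · rw [if_pos hc, if_pos hc, if_pos hc]; ring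
    · rw [if_neg hc, if_neg hc, if_neg hc]; ring
  have h3 : (if 2 ≤ μ (Fin.last k) then (n : ℚ) - 2 * k - 1 else 0)
      = ((n : ℚ) - 2 * k - 1) * Cf k μ := by
    unfold Cf
    by_cases hc : 2 ≤ μ (Fin.last k)
    · rw [if_pos hc, if_pos hc, mul_one]
    · rw [if_neg hc, if_neg hc, mul_zero]
  rw [h2, h3] at h1
  linarith

/-! ### uniform distribution -/

theorem unif_toggle (n m : ℕ) :
    ∑ μ ∈ Jset n m, (∑ i, dnG n μ i - ∑ i, upT n μ i) = 0 := by
  rw [sum_sub_distrib, sum_comm, sum_comm (f := fun μ i => upT n μ i), sub_eq_zero]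
  refine sum_congr rfl fun i _ => ?_
  unfold dnG upT
  rw [← sum_filter, ← sum_filter]
  refine sum_nbij' (fun μ => dec μ i) (fun μ => inc μ i) ?_ ?_ ?_ ?_ ?_
  · intro μ hμ
    rw [mem_filter, mem_Jset] at hμ ⊢
    refine ⟨hμ.2.2, ?_⟩
    rw [inc_dec _ _ hμ.2.1]; exact hμ.1
  · intro μ hμ
    rw [mem_filter, mem_Jset] at hμ ⊢
    refine ⟨hμ.2, ?_, ?_⟩
    · rw [inc_self]; exact Nat.succ_pos _
    · rw [dec_inc]; exact hμ.1
  · intro μ hμ
    rw [mem_filter] at hμ
    exact inc_dec _ _ hμ.2.1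
  · intro μ _
    exact dec_inc _ _
  · intro μ _
    rw [dec_self]

theorem unif_avg (n k : ℕ) (hn : 1 ≤ n) (hk : 2 * k < n) :
    ((n : ℚ) + 1) * ∑ μ ∈ Jset n (k + 1), Dd n μ
      = (((k : ℚ) + 1) * (n - k)) * #(Jset n (k + 1)) := by
  have h1 : 4 * ∑ μ ∈ Jset n (k + 1), Dd n μ
      = ((n : ℚ) + 1) * #(Jset n (k + 1)) - ((n : ℚ) - 2 * k - 1) *
        #((Jset n (k + 1)).filter (fun μ => 2 ≤ μ (Fin.last k))) := by
    rw [mul_sum, sum_congr rfl (fun μ hμ => four_D n k hn hk μ ((mem_Jset n _ μ).mp hμ)),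
      sum_add_distrib, unif_toggle, sum_sub_distrib, ← mul_sum, add_zero]
    have h2 : ∑ μ ∈ Jset n (k + 1), Cf k μ
        = #((Jset n (k + 1)).filter (fun μ => 2 ≤ μ (Fin.last k))) := by
      unfold Cf
      rw [← sum_filter]; simp
    rw [h2, sum_const, nsmul_eq_mul]; ring
  have h3 := C_count n k hk
  linear_combination (((n : ℚ) + 1) / 4) * h1 - (((n : ℚ) - 2 * k - 1) / 4) * h3

/-! ### maximal chain distribution -/

/-- the sum of `f` over all (maximal chain, element of it) -/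
noncomputable def EE (n k N : ℕ) (f : (Fin (k + 1) → ℕ) → ℚ) : ℚ :=
  ∑ w ∈ WL (Val n) N (Top n k), ∑ j ∈ range (N + 1), f (cont N w j)

theorem EE_eq (n k N : ℕ) (f : (Fin (k + 1) → ℕ) → ℚ) :
    EE n k N f = Phi (Val n) f N (Top n k) := sum_WL (Val_zero n _) f N _

theorem EE_congr (n k N : ℕ) (f g : (Fin (k + 1) → ℕ) → ℚ) (h : ∀ μ, Val n μ → f μ = g μ) :
    EE n k N f = EE n k N g := by
  unfold EE
  refine sum_congr rfl fun w hw => sum_congr rfl fun j hj => ?_
  exact h _ ((mem_filter.mp hw).2.1 j (by have := mem_range.mp hj; omega))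

theorem EE_up (n k N : ℕ) :
    EE n k N (fun μ => ∑ i, upT n μ i)
      = ∑ i : Fin (k + 1), ∑ v ∈ range (Top n k i), gam n i v * Phi (Val n) (Bf (Val n) i v) N (Top n k) := by
  have h1 : EE n k N (fun μ => ∑ i, upT n μ i)
      = EE n k N (fun μ => ∑ i : Fin (k + 1), ∑ v ∈ range (Top n k i),
          gam n i v * Bf (Val n) i v μ) := by
    refine EE_congr n k N _ _ fun μ hμ => sum_congr rfl fun i _ => ?_
    unfold upT
    by_cases hc : Val n (inc μ i)
    · rw [if_pos hc, sum_eq_single (μ i)]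
      · simp [Bf, hc]
      · intro v _ hv
        simp [Bf, Ne.symm hv]
      · intro hv
        exfalso; apply hv
        rw [mem_range]
        have := hc.1 i
        rw [inc_self] at this
        exact this
    · rw [if_neg hc]
      symm
      refine sum_eq_zero fun v _ => ?_
      simp [Bf, hc]
  rw [h1]
  have h2 : ∀ (i : Fin (k + 1)) (v : ℕ), Phi (Val n) (Bf (Val n) i v) N (Top n k)
      = EE n k N (Bf (Val n) i v) := fun i v => (EE_eq n k N _).symm
  simp only [h2]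
  unfold EE
  simp only [mul_sum]
  rw [sum_congr rfl fun w _ => sum_comm, sum_comm]
  refine sum_congr rfl fun i _ => ?_
  rw [sum_congr rfl fun w _ => sum_comm, sum_comm]

theorem EE_dn (n k N : ℕ) :
    EE n k N (fun μ => ∑ i, dnG n μ i)
      = ∑ i : Fin (k + 1), ∑ v ∈ range (Top n k i), gam n i v * Phi (Val n) (Af (Val n) i v) N (Top n k) := by
  have h1 : EE n k N (fun μ => ∑ i, dnG n μ i)
      = EE n k N (fun μ => ∑ i : Fin (k + 1), ∑ v ∈ range (Top n k i),
          gam n i v * Af (Val n) i v μ) := by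
    refine EE_congr n k N _ _ fun μ hμ => sum_congr rfl fun i _ => ?_
    unfold dnG
    by_cases hc : 0 < μ i ∧ Val n (dec μ i)
    · rw [if_pos hc, sum_eq_single (μ i - 1)]
      · have : μ i = μ i - 1 + 1 := by omega
        simp [Af, hc.2, ← this]
      · intro v _ hv
        have : μ i ≠ v + 1 := by omega
        simp [Af, this]
      · intro hv
        exfalso; apply hv
        rw [mem_range]
        have := hμ.1 i
        have h0 := hc.1
        show μ i - 1 < n - 2 * (i : ℕ)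
        omega
    · rw [if_neg hc]
      symm
      refine sum_eq_zero fun v _ => ?_
      unfold Af
      rw [if_neg, mul_zero]
      rintro ⟨h3, h4⟩
      exact hc ⟨by omega, h4⟩
  rw [h1]
  have h2 : ∀ (i : Fin (k + 1)) (v : ℕ), Phi (Val n) (Af (Val n) i v) N (Top n k)
      = EE n k N (Af (Val n) i v) := fun i v => (EE_eq n k N _).symm
  simp only [h2]
  unfold EE
  simp only [mul_sum]
  rw [sum_congr rfl fun w _ => sum_comm, sum_comm]
  refine sum_congr rfl fun i _ => ?_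
  rw [sum_congr rfl fun w _ => sum_comm, sum_comm]

theorem chain_toggle (n k N : ℕ) (hk : 2 * k < n) :
    EE n k N (fun μ => ∑ i, dnG n μ i) = EE n k N (fun μ => ∑ i, upT n μ i) := by
  rw [EE_up, EE_dn]
  refine sum_congr rfl fun i _ => sum_congr rfl fun v hv => ?_
  rw [Phi_toggle (Val_zero n _) (Val_sup n) (Val_inf n) i v N (Top n k) (Top_val n k hk)
    (by have := mem_range.mp hv; omega)]

theorem chain_avg (n k N : ℕ) (hn : 1 ≤ n) (hk : 2 * k < n) (hN : ∑ i, Top n k i = N) :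
    ((n : ℚ) + 1) * EE n k N (Dd n)
      = (((k : ℚ) + 1) * (n - k)) * (((N : ℚ) + 1) * #(WL (Val n) N (Top n k))) := by
  have hcard : pc (Val n) N (Top n k) = #(WL (Val n) N (Top n k)) := by
    rw [← card_WL (Val_zero n _)]; simp
  have h1 : 4 * EE n k N (Dd n) = ((n : ℚ) + 1) * (((N : ℚ) + 1) * #(WL (Val n) N (Top n k)))
      - ((n : ℚ) - 2 * k - 1) * EE n k N (Cf k) := by
    have h2 : EE n k N (fun μ => 4 * Dd n μ) = EE n k N (fun μ =>
        ((n : ℚ) + 1) - ((n : ℚ) - 2 * k - 1) * Cf k μ + (∑ i, dnG n μ i - ∑ i, upT n μ i)) :=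
      EE_congr n k N _ _ fun μ hμ => four_D n k hn hk μ hμ
    have h3 : EE n k N (fun μ => 4 * Dd n μ) = 4 * EE n k N (Dd n) := by
      unfold EE; simp only [mul_sum]
    have h4 : EE n k N (fun μ =>
        ((n : ℚ) + 1) - ((n : ℚ) - 2 * k - 1) * Cf k μ + (∑ i, dnG n μ i - ∑ i, upT n μ i))
        = ((n : ℚ) + 1) * (((N : ℚ) + 1) * #(WL (Val n) N (Top n k)))
          - ((n : ℚ) - 2 * k - 1) * EE n k N (Cf k)
          + (EE n k N (fun μ => ∑ i, dnG n μ i) - EE n k N (fun μ => ∑ i, upT n μ i)) := by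
      unfold EE
      simp only [sum_add_distrib, sum_sub_distrib, mul_sum]
      simp only [sum_const, card_range, nsmul_eq_mul]
      push_cast
      ring
    rw [← h3, h2, h4, chain_toggle n k N hk]
    ring
  have h5 : EE n k N (Cf k) = ((N : ℚ) + 1) * #(WL (Val n) N (Top n k))
      * (((n : ℚ) - 2 * k - 1) / (n + 1)) := by
    rw [EE_eq, Phi_C_Top n k hk N hN, hcard]
  have h6 : ((n : ℚ) + 1) * EE n k N (Cf k)
      = ((n : ℚ) - 2 * k - 1) * (((N : ℚ) + 1) * #(WL (Val n) N (Top n k))) := by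
    rw [h5]
    have : (n : ℚ) + 1 ≠ 0 := by positivity
    field_simp
  linear_combination (((n : ℚ) + 1) / 4) * h1 - (((n : ℚ) - 2 * k - 1) / 4) * h6

theorem WL_card_ne_zero (n k N : ℕ) (hk : 2 * k < n) (hN : ∑ i, Top n k i = N) :
    (#(WL (Val n) N (Top n k)) : ℚ) ≠ 0 := by
  have hcard : pc (Val n) N (Top n k) = #(WL (Val n) N (Top n k)) := by
    rw [← card_WL (Val_zero n _)]; simp
  rw [← hcard]
  exact pc_Top_ne_zero n k hk N hN

theorem Top_sum (n k : ℕ) (hk : 2 * k < n) :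
    ((∑ i : Fin (k + 1), (n - 2 * (i : ℕ)) : ℕ) : ℚ) = ((k : ℚ) + 1) * (n - k) := by
  induction k with
  | zero => simp
  | succ k ih =>
    rw [Fin.sum_univ_castSucc]
    have := ih (by omega)
    simp only [Fin.val_castSucc, Fin.val_last]
    rw [Nat.cast_add, this, Nat.cast_sub (by omega)]
    push_cast
    ring

end Pool.Agent.Run7.h559
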