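import Mathlib

set_option autoImplicit false
open scoped Classical

/-!
# Path counts in a lattice of vectors and toggle symmetry of the maximal chain distribution
-/

open Finset

namespace Pool.Agent.Run7.h559

variable {m : ℕ}

/-- remove a box in row `i` -/
def dec (μ : Fin m → ℕ) (i : Fin m) : Fin m → ℕ := Function.update μ i (μ i - 1)

/-- add a box in row `i` -/
def inc (μ : Fin m → ℕ) (i : Fin m) : Fin m → ℕ := Function.update μ i (μ i + 1)

theorem dec_self (μ : Fin m → ℕ) (i : Fin m) : dec μ i i = μ i - 1 := by simp [dec]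
theorem inc_self (μ : Fin m → ℕ) (i : Fin m) : inc μ i i = μ i + 1 := by simp [inc]
theorem dec_ne (μ : Fin m → ℕ) {i j : Fin m} (h : j ≠ i) : dec μ i j = μ j := by simp [dec, h]
theorem inc_ne (μ : Fin m → ℕ) {i j : Fin m} (h : j ≠ i) : inc μ i j = μ j := by simp [inc, h]

theorem dec_le (μ : Fin m → ℕ) (i : Fin m) : dec μ i ≤ μ := by
  intro j
  by_cases h : j = i
  · subst h; rw [dec_self]; exact Nat.sub_le _ _
  · rw [dec_ne μ h]

theorem dec_inc (μ : Fin m → ℕ) (i : Fin m) : dec (inc μ i) i = μ := by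
  funext j
  by_cases h : j = i
  · subst h; rw [dec_self, inc_self]; omega
  · rw [dec_ne _ h, inc_ne _ h]

theorem inc_dec (μ : Fin m → ℕ) (i : Fin m) (h0 : 0 < μ i) : inc (dec μ i) i = μ := by
  funext j
  by_cases h : j = i
  · subst h; rw [inc_self, dec_self]; omega
  · rw [inc_ne _ h, dec_ne _ h]

theorem dec_inc_ne (μ : Fin m → ℕ) {i j : Fin m} (h : j ≠ i) :
    dec (inc μ i) j = inc (dec μ j) i := by
  funext a
  by_cases h1 : a = i
  · subst h1; rw [dec_ne _ h.symm, inc_self, inc_self, dec_ne _ h.symm]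
  · by_cases h2 : a = j
    · subst h2; rw [dec_self, inc_ne _ h1, inc_ne _ h1, dec_self]
    · rw [dec_ne _ h2, inc_ne _ h1, inc_ne _ h1, dec_ne _ h2]

theorem inc_eq_iff (μ ν : Fin m → ℕ) (i : Fin m) : inc μ i = ν ↔ 0 < ν i ∧ μ = dec ν i := by
  constructor
  · rintro rfl
    exact ⟨by rw [inc_self]; omega, (dec_inc μ i).symm⟩
  · rintro ⟨h, rfl⟩
    exact inc_dec ν i h

variable (V : (Fin m → ℕ) → Prop)

/-- number of valid paths of length `L` from `0` to `κ` -/
noncomputable def pc : ℕ → (Fin m → ℕ) → ℚ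
  | 0, κ => if κ = 0 then 1 else 0
  | L + 1, κ => if V κ then ∑ i, (if 0 < κ i then pc L (dec κ i) else 0) else 0

/-- sum of `f` over all (path of length `L` to `κ`, vertex of the path) -/
noncomputable def Phi (f : (Fin m → ℕ) → ℚ) : ℕ → (Fin m → ℕ) → ℚ
  | 0, κ => if κ = 0 then f 0 else 0
  | L + 1, κ => if V κ then ∑ i, (if 0 < κ i then Phi f L (dec κ i) else 0)
      + f κ * pc V (L + 1) κ else 0

theorem pc_zero (κ : Fin m → ℕ) : pc V 0 κ = if κ = 0 then 1 else 0 := rfl
theorem pc_succ (L : ℕ) (κ : Fin m → ℕ) :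
    pc V (L + 1) κ = if V κ then ∑ i, (if 0 < κ i then pc V L (dec κ i) else 0) else 0 := rfl
theorem Phi_zero (f : (Fin m → ℕ) → ℚ) (κ : Fin m → ℕ) :
    Phi V f 0 κ = if κ = 0 then f 0 else 0 := rfl
theorem Phi_succ (f : (Fin m → ℕ) → ℚ) (L : ℕ) (κ : Fin m → ℕ) :
    Phi V f (L + 1) κ = if V κ then ∑ i, (if 0 < κ i then Phi V f L (dec κ i) else 0)
      + f κ * pc V (L + 1) κ else 0 := rfl

/-- partial content of a word -/
def cont (L : ℕ) (w : Fin L → Fin m) (j : ℕ) (i : Fin m) : ℕ :=
  (univ.filter (fun t : Fin L => (t : ℕ) < j ∧ w t = i)).card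

theorem cont_snoc_le (L : ℕ) (w : Fin L → Fin m) (a : Fin m) (j : ℕ) (hj : j ≤ L) :
    cont (L + 1) (Fin.snoc w a : Fin (L + 1) → Fin m) j = cont L w j := by
  funext i
  unfold cont
  rw [Fin.univ_castSuccEmb, filter_cons_of_neg, filter_map, card_map]
  · congr 1
    ext t
    simp
  · simp only [Fin.val_last]; omega

theorem cont_snoc_last (L : ℕ) (w : Fin L → Fin m) (a : Fin m) :
    cont (L + 1) (Fin.snoc w a : Fin (L + 1) → Fin m) (L + 1) = inc (cont L w L) a := by
  funext i
  have hmap : (univ.filter (fun t : Fin L => ((Fin.castSucc t : Fin (L + 1)) : ℕ) < L + 1 ∧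
      (Fin.snoc w a : Fin (L + 1) → Fin m) t.castSucc = i)).card = cont L w L i := by
    unfold cont
    congr 1
    ext t
    simp
  by_cases h : i = a
  · subst h
    rw [inc_self, ← hmap]
    unfold cont
    rw [Fin.univ_castSuccEmb, filter_cons_of_pos, card_cons, filter_map, card_map]
    · rfl
    · simp
  · rw [inc_ne _ h, ← hmap]
    unfold cont
    rw [Fin.univ_castSuccEmb, filter_cons_of_neg, filter_map, card_map]
    · rfl
    · simp; exact fun h' => h h'.symm

/-- the valid words of length `L` ending at `κ` -/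
noncomputable def WL (L : ℕ) (κ : Fin m → ℕ) : Finset (Fin L → Fin m) :=
  univ.filter (fun w => (∀ j : ℕ, j ≤ L → V (cont L w j)) ∧ cont L w L = κ)

theorem mem_snoc (L : ℕ) (κ : Fin m → ℕ) (w : Fin L → Fin m) (a : Fin m) :
    (Fin.snoc w a : Fin (L + 1) → Fin m) ∈ WL V (L + 1) κ ↔
      V κ ∧ 0 < κ a ∧ w ∈ WL V L (dec κ a) := by
  unfold WL
  simp only [mem_filter, mem_univ, true_and]
  rw [cont_snoc_last]
  constructor
  · rintro ⟨h1, h2⟩
    rw [inc_eq_iff] at h2
    refine ⟨?_, h2.1, fun j hj => ?_, h2.2⟩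
    · have := h1 (L + 1) le_rfl
      rw [cont_snoc_last, h2.2, inc_dec _ _ h2.1] at this
      exact this
    · have := h1 j (by omega)
      rwa [cont_snoc_le _ _ _ _ hj] at this
  · rintro ⟨h1, h2, h3, h4⟩
    refine ⟨fun j hj => ?_, ?_⟩
    · rcases Nat.lt_or_ge j (L + 1) with h | h
      · rw [cont_snoc_le _ _ _ _ (by omega)]; exact h3 j (by omega)
      · have : j = L + 1 := by omega
        rw [this, cont_snoc_last, h4, inc_dec _ _ h2]; exact h1
    · rw [h4, inc_dec _ _ h2]

theorem sum_WL_succ (L : ℕ) (κ : Fin m → ℕ) (H : (Fin (L + 1) → Fin m) → ℚ) :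
    ∑ w ∈ WL V (L + 1) κ, H w =
      if V κ then ∑ a, (if 0 < κ a then ∑ w ∈ WL V L (dec κ a), H (Fin.snoc w a) else 0) else 0 := by
  have h1 : ∑ w ∈ WL V (L + 1) κ, H w
      = ∑ w : Fin (L + 1) → Fin m, if w ∈ WL V (L + 1) κ then H w else 0 := by
    rw [← sum_filter]; congr 1; ext w; simp
  rw [h1, ← (Fin.snocEquiv (fun _ => Fin m)).sum_comp, Fintype.sum_prod_type]
  have h2 : ∀ (a : Fin m) (w : Fin L → Fin m),
      (if ((Fin.snocEquiv (fun _ => Fin m)) (a, w) : Fin (L + 1) → Fin m) ∈ WL V (L + 1) κ then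
        H ((Fin.snocEquiv (fun _ => Fin m)) (a, w)) else 0)
      = if V κ ∧ 0 < κ a ∧ w ∈ WL V L (dec κ a) then H (Fin.snoc w a) else 0 := by
    intro a w
    have h3 : ((Fin.snocEquiv (fun _ => Fin m)) (a, w) : Fin (L + 1) → Fin m) = Fin.snoc w a := rfl
    rw [h3]
    by_cases h : V κ ∧ 0 < κ a ∧ w ∈ WL V L (dec κ a)
    · rw [if_pos h, if_pos ((mem_snoc V L κ w a).mpr h)]
    · rw [if_neg h, if_neg (fun h' => h ((mem_snoc V L κ w a).mp h'))]
  simp only [h2]
  by_cases hV : V κ
  · rw [if_pos hV]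
    refine sum_congr rfl fun a _ => ?_
    by_cases ha : 0 < κ a
    · rw [if_pos ha]
      simp only [hV, ha, true_and]
      rw [← sum_filter]; congr 1; ext w; simp
    · rw [if_neg ha]
      simp [ha]
  · simp [hV]

variable {V}

theorem cont_zero (w : Fin 0 → Fin m) (j : ℕ) : cont 0 w j = 0 := by
  funext i; simp [cont]

theorem card_WL (h0 : V 0) (L : ℕ) : ∀ κ : Fin m → ℕ, ∑ _w ∈ WL V L κ, (1 : ℚ) = pc V L κ := by
  induction L with
  | zero =>
    intro κ
    rw [pc_zero]
    by_cases h : κ = 0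
    · subst h
      have : WL V 0 (0 : Fin m → ℕ) = univ := by
        ext w; simp [WL, cont_zero, h0]
      rw [this]; simp
    · have : WL V 0 κ = ∅ := by
        ext w; simp [WL, cont_zero, h0, Ne.symm h]
      rw [this, if_neg h]; simp
  | succ L ih =>
    intro κ
    rw [sum_WL_succ, pc_succ]
    simp only [ih]

theorem sum_WL (h0 : V 0) (f : (Fin m → ℕ) → ℚ) (L : ℕ) : ∀ κ : Fin m → ℕ,
    ∑ w ∈ WL V L κ, ∑ j ∈ range (L + 1), f (cont L w j) = Phi V f L κ := by
  induction L with
  | zero =>
    intro κ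
    rw [Phi_zero]
    by_cases h : κ = 0
    · subst h
      have : WL V 0 (0 : Fin m → ℕ) = univ := by
        ext w; simp [WL, cont_zero, h0]
      rw [this]; simp [cont_zero]
    · have : WL V 0 κ = ∅ := by
        ext w; simp [WL, cont_zero, h0, Ne.symm h]
      rw [this, if_neg h]; simp
  | succ L ih =>
    intro κ
    rw [sum_WL_succ, Phi_succ]
    by_cases hV : V κ
    · rw [if_pos hV, if_pos hV, pc_succ, if_pos hV, mul_sum, ← sum_add_distrib]
      refine sum_congr rfl fun a _ => ?_
      by_cases ha : 0 < κ a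
      · rw [if_pos ha, if_pos ha, if_pos ha, ← ih, ← card_WL h0, mul_sum, ← sum_add_distrib]
        refine sum_congr rfl fun w hw => ?_
        rw [sum_range_succ, mul_one]
        congr 1
        · refine sum_congr rfl fun j hj => ?_
          rw [cont_snoc_le _ _ _ _ (by have := mem_range.mp hj; omega)]
        · rw [cont_snoc_last]
          have : cont L w L = dec κ a := (mem_filter.mp hw).2.2
          rw [this, inc_dec _ _ ha]
      · simp [ha]
    · simp [hV]

theorem pc_not (h0 : V 0) (L : ℕ) (κ : Fin m → ℕ) (h : ¬ V κ) : pc V L κ = 0 := by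
  cases L with
  | zero =>
    rw [pc_zero, if_neg]
    rintro rfl; exact h h0
  | succ L => rw [pc_succ, if_neg h]

theorem Phi_not (h0 : V 0) (f : (Fin m → ℕ) → ℚ) (L : ℕ) (κ : Fin m → ℕ) (h : ¬ V κ) :
    Phi V f L κ = 0 := by
  cases L with
  | zero =>
    rw [Phi_zero, if_neg]
    rintro rfl; exact h h0
  | succ L => rw [Phi_succ, if_neg h]

theorem Phi_vanish (h0 : V 0) (f : (Fin m → ℕ) → ℚ) (L : ℕ) : ∀ κ : Fin m → ℕ,
    (∀ ν, ν ≤ κ → V ν → f ν = 0) → Phi V f L κ = 0 := by
  induction L with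
  | zero =>
    intro κ h
    rw [Phi_zero]
    by_cases hk : κ = 0
    · rw [if_pos hk]; exact h 0 (by rw [hk]) h0
    · rw [if_neg hk]
  | succ L ih =>
    intro κ h
    rw [Phi_succ]
    by_cases hV : V κ
    · rw [if_pos hV, h κ le_rfl hV, zero_mul, add_zero]
      refine sum_eq_zero fun i _ => ?_
      by_cases hi : 0 < κ i
      · rw [if_pos hi]
        exact ih _ fun ν hν hVν => h ν (hν.trans (dec_le κ i)) hVν
      · rw [if_neg hi]
    · rw [if_neg hV]

/-- indicator: box `(i, v)` can be added -/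
noncomputable def Bf (V : (Fin m → ℕ) → Prop) (i : Fin m) (v : ℕ) (ν : Fin m → ℕ) : ℚ :=
  if ν i = v ∧ V (inc ν i) then 1 else 0

/-- indicator: box `(i, v)` can be removed -/
noncomputable def Af (V : (Fin m → ℕ) → Prop) (i : Fin m) (v : ℕ) (ν : Fin m → ℕ) : ℚ :=
  if ν i = v + 1 ∧ V (dec ν i) then 1 else 0

theorem Phi_insert (h0 : V 0) (hsup : ∀ μ ν, V μ → V ν → V (μ ⊔ ν))
    (hinf : ∀ μ ν, V μ → V ν → V (μ ⊓ ν)) (i : Fin m) (L : ℕ) : ∀ κ : Fin m → ℕ,
    V κ → V (inc κ i) → Phi V (Bf V i (κ i)) L κ = pc V (L + 1) (inc κ i) := by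
  induction L with
  | zero =>
    intro κ hκ hi
    rw [Phi_zero, pc_succ, if_pos hi]
    by_cases hk : κ = 0
    · subst hk
      rw [if_pos rfl, ← add_sum_erase univ _ (mem_univ i)]
      have : ∑ j ∈ univ.erase i, (if 0 < inc (0 : Fin m → ℕ) i j then pc V 0 (dec (inc 0 i) j) else 0)
          = 0 := by
        refine sum_eq_zero fun j hj => ?_
        rw [inc_ne _ (mem_erase.mp hj).1]; simp
      rw [this, add_zero, inc_self, dec_inc, pc_zero]
      simp [Bf, hi]
    · rw [if_neg hk]
      symm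
      refine sum_eq_zero fun j _ => ?_
      rw [pc_zero]
      by_cases hj : j = i
      · subst hj; rw [dec_inc, if_neg hk]; simp
      · rw [if_neg (c := dec (inc κ i) j = 0)]
        · simp
        · intro h
          have := congrFun h i
          rw [dec_ne _ (Ne.symm hj), inc_self] at this
          simp at this
  | succ L ih =>
    intro κ hκ hi
    rw [Phi_succ, if_pos hκ, pc_succ V (L + 1) (inc κ i), if_pos hi,
      ← add_sum_erase univ _ (mem_univ i),
      ← add_sum_erase univ (fun j => if 0 < inc κ i j then pc V (L + 1) (dec (inc κ i) j) else 0)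
        (mem_univ i)]
    have hB : Bf V i (κ i) κ = 1 := by simp [Bf, hi]
    have h1 : (if 0 < κ i then Phi V (Bf V i (κ i)) L (dec κ i) else 0) = 0 := by
      by_cases hpos : 0 < κ i
      · rw [if_pos hpos]
        refine Phi_vanish h0 _ _ _ fun ν hν _ => ?_
        have h6 : ν i ≤ κ i - 1 := by have := hν i; rwa [dec_self] at this
        unfold Bf
        rw [if_neg]
        rintro ⟨h, _⟩; omega
      · rw [if_neg hpos]
    have h2 : (if 0 < inc κ i i then pc V (L + 1) (dec (inc κ i) i) else 0) = pc V (L + 1) κ := by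
      rw [inc_self, if_pos (Nat.succ_pos _), dec_inc]
    have h3 : ∑ j ∈ univ.erase i, (if 0 < κ j then Phi V (Bf V i (κ i)) L (dec κ j) else 0)
        = ∑ j ∈ univ.erase i, (if 0 < inc κ i j then pc V (L + 1) (dec (inc κ i) j) else 0) := by
      refine sum_congr rfl fun j hj => ?_
      have hji : j ≠ i := (mem_erase.mp hj).1
      rw [inc_ne _ hji]
      by_cases hpos : 0 < κ j
      · rw [if_pos hpos, if_pos hpos, dec_inc_ne _ hji]
        by_cases hV : V (inc (dec κ j) i)
        · -- `dec κ j` is the meet of `κ` and `inc (dec κ j) i`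
          have hV2 : V (dec κ j) := by
            have h := hinf _ _ hκ hV
            have : κ ⊓ inc (dec κ j) i = dec κ j := by
              funext a
              show min (κ a) (inc (dec κ j) i a) = dec κ j a
              by_cases h1 : a = i
              · subst h1; rw [inc_self, dec_ne _ hji.symm]; omega
              · rw [inc_ne _ h1]
                exact min_eq_right (dec_le κ j a)
            rwa [this] at h
          have := ih (dec κ j) hV2 hV
          rw [dec_ne _ hji.symm] at this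
          exact this
        · rw [pc_not h0 _ _ hV]
          by_cases hV2 : V (dec κ j)
          · refine Phi_vanish h0 _ _ _ fun ν hν _ => ?_
            unfold Bf
            rw [if_neg]
            rintro ⟨h, h'⟩
            apply hV
            have h4 := hsup _ _ h' hV2
            have : inc ν i ⊔ dec κ j = inc (dec κ j) i := by
              funext a
              show max (inc ν i a) (dec κ j a) = inc (dec κ j) i a
              by_cases h1 : a = i
              · subst h1; rw [inc_self, inc_self, dec_ne _ hji.symm, h]; omega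
              · rw [inc_ne _ h1, inc_ne _ h1]
                exact max_eq_right (hν a)
            rwa [this] at h4
          · exact Phi_not h0 _ _ _ hV2
      · rw [if_neg hpos, if_neg hpos]
    rw [h1, h2, h3, hB, zero_add, one_mul, add_comm]

/-- **Toggle symmetry of the maximal chain distribution.** -/
theorem Phi_toggle (h0 : V 0) (hsup : ∀ μ ν, V μ → V ν → V (μ ⊔ ν))
    (hinf : ∀ μ ν, V μ → V ν → V (μ ⊓ ν)) (i : Fin m) (v : ℕ) (L : ℕ) : ∀ κ : Fin m → ℕ,
    V κ → v + 1 ≤ κ i → Phi V (Af V i v) L κ = Phi V (Bf V i v) L κ := by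
  induction L with
  | zero =>
    intro κ _ hv
    rw [Phi_zero, Phi_zero]
    have : κ ≠ 0 := by
      rintro rfl; simp at hv
    rw [if_neg this, if_neg this]
  | succ L ih =>
    intro κ hκ hv
    rw [Phi_succ, Phi_succ, if_pos hκ, if_pos hκ, ← add_sum_erase univ _ (mem_univ i),
      ← add_sum_erase univ (fun j => if 0 < κ j then Phi V (Bf V i v) L (dec κ j) else 0)
        (mem_univ i)]
    have hB : Bf V i v κ = 0 := by
      unfold Bf; rw [if_neg]; rintro ⟨h, _⟩; omega
    have h1 : ∑ j ∈ univ.erase i, (if 0 < κ j then Phi V (Af V i v) L (dec κ j) else 0)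
        = ∑ j ∈ univ.erase i, (if 0 < κ j then Phi V (Bf V i v) L (dec κ j) else 0) := by
      refine sum_congr rfl fun j hj => ?_
      have hji : j ≠ i := (mem_erase.mp hj).1
      by_cases hpos : 0 < κ j
      · rw [if_pos hpos, if_pos hpos]
        by_cases hV : V (dec κ j)
        · exact ih _ hV (by rw [dec_ne _ hji.symm]; exact hv)
        · rw [Phi_not h0 _ _ _ hV, Phi_not h0 _ _ _ hV]
      · rw [if_neg hpos, if_neg hpos]
    have hpos : 0 < κ i := by omega
    rw [h1, hB, if_pos hpos, if_pos hpos, zero_mul, add_zero]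
    by_cases hv2 : v + 2 ≤ κ i
    · have hA : Af V i v κ = 0 := by
        unfold Af; rw [if_neg]; rintro ⟨h, _⟩; omega
      rw [hA, zero_mul, add_zero]
      congr 1
      by_cases hV : V (dec κ i)
      · exact ih _ hV (by rw [dec_self]; omega)
      · rw [Phi_not h0 _ _ _ hV, Phi_not h0 _ _ _ hV]
    · have hvi : κ i = v + 1 := by omega
      have hA : Phi V (Af V i v) L (dec κ i) = 0 := by
        refine Phi_vanish h0 _ _ _ fun ν hν _ => ?_
        have h6 : ν i ≤ κ i - 1 := by have := hν i; rwa [dec_self] at this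
        unfold Af
        rw [if_neg]
        rintro ⟨h, _⟩; omega
      rw [hA, zero_add]
      by_cases hV : V (dec κ i)
      · have hA1 : Af V i v κ = 1 := by simp [Af, hvi, hV]
        have h5 := Phi_insert h0 hsup hinf i L (dec κ i) hV (by rw [inc_dec _ _ hpos]; exact hκ)
        rw [inc_dec _ _ hpos, dec_self, hvi, Nat.add_sub_cancel] at h5
        rw [hA1, h5, one_mul, add_comm]
      · have hA1 : Af V i v κ = 0 := by simp [Af, hV]
        rw [hA1, Phi_not h0 _ _ _ hV, zero_mul, zero_add, add_zero]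

end Pool.Agent.Run7.h559
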