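import Pool.Agent.Run7.h559.Thrall
import Pool.Agent.Run7.h559.Path

set_option autoImplicit false
open scoped Classical

/-!
# The pointwise identity expressing the down-degree through toggles
-/

open Finset

namespace Pool.Agent.Run7.h559

/-- strict partitions inside the trapezoid `(n, n-2, ..., n-2(m-1))` -/
def Val (n : ℕ) {m : ℕ} (μ : Fin m → ℕ) : Prop :=
  (∀ i : Fin m, μ i ≤ n - 2 * (i : ℕ)) ∧ Str μ

theorem Val_zero (n m : ℕ) : Val n (0 : Fin m → ℕ) :=
  ⟨fun i => by simp, fun i j _ => Or.inl rfl⟩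

theorem Val_sup (n : ℕ) {m : ℕ} (μ ν : Fin m → ℕ) (h1 : Val n μ) (h2 : Val n ν) :
    Val n (μ ⊔ ν) := by
  refine ⟨fun i => ?_, fun i j hij => ?_⟩
  · show max (μ i) (ν i) ≤ _
    exact max_le (h1.1 i) (h2.1 i)
  · show max (μ j) (ν j) = 0 ∨ max (μ j) (ν j) < max (μ i) (ν i)
    have := h1.2 i j hij
    have := h2.2 i j hij
    omega

theorem Val_inf (n : ℕ) {m : ℕ} (μ ν : Fin m → ℕ) (h1 : Val n μ) (h2 : Val n ν) :
    Val n (μ ⊓ ν) := by
  refine ⟨fun i => ?_, fun i j hij => ?_⟩
  · show min (μ i) (ν i) ≤ _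
    exact (min_le_left _ _).trans (h1.1 i)
  · show min (μ j) (ν j) = 0 ∨ min (μ j) (ν j) < min (μ i) (ν i)
    have := h1.2 i j hij
    have := h2.2 i j hij
    omega

theorem Val_inc_iff (n : ℕ) {m : ℕ} (μ : Fin m → ℕ) (h : Val n μ) (i : Fin m) :
    Val n (inc μ i) ↔ μ i + 1 ≤ n - 2 * (i : ℕ) ∧ ∀ a < i, μ i + 1 < μ a := by
  constructor
  · rintro ⟨h1, h2⟩
    refine ⟨by have := h1 i; rwa [inc_self] at this, fun a ha => ?_⟩
    have := h2 a i ha
    rw [inc_self, inc_ne _ (ne_of_lt ha)] at this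
    omega
  · rintro ⟨h1, h2⟩
    refine ⟨fun j => ?_, fun a b hab => ?_⟩
    · by_cases hj : j = i
      · subst hj; rw [inc_self]; exact h1
      · rw [inc_ne _ hj]; exact h.1 j
    · by_cases hb : b = i
      · subst hb
        rw [inc_self, inc_ne _ (ne_of_lt hab)]
        exact Or.inr (h2 a hab)
      · rw [inc_ne _ hb]
        by_cases ha : a = i
        · subst ha
          rw [inc_self]
          have := h.2 a b hab
          omega
        · rw [inc_ne _ ha]; exact h.2 a b hab

theorem Val_dec_iff (n : ℕ) {m : ℕ} (μ : Fin m → ℕ) (h : Val n μ) (i : Fin m) (h0 : 0 < μ i) :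
    Val n (dec μ i) ↔ ∀ b, i < b → μ b = 0 ∨ μ b < μ i - 1 := by
  constructor
  · rintro ⟨h1, h2⟩ b hb
    have := h2 i b hb
    rw [dec_self, dec_ne _ (ne_of_gt hb)] at this
    exact this
  · intro h1
    refine ⟨fun j => (dec_le μ i j).trans (h.1 j), fun a b hab => ?_⟩
    by_cases hb : b = i
    · subst hb
      rw [dec_self, dec_ne _ (ne_of_lt hab)]
      have := h.2 a b hab
      omega
    · rw [dec_ne _ hb]
      by_cases ha : a = i
      · subst ha
        rw [dec_self]
        exact h1 b hab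
      · rw [dec_ne _ ha]; exact h.2 a b hab

/-- the weight of box `(i, v)` -/
def gam (n i v : ℕ) : ℚ := if v = 0 then (n : ℚ) + 1 - 2 * i else 2 * ((n : ℚ) - 2 * i - v)

/-- toggle-in term -/
noncomputable def upT (n : ℕ) {m : ℕ} (μ : Fin m → ℕ) (i : Fin m) : ℚ :=
  if Val n (inc μ i) then gam n i (μ i) else 0

/-- toggle-out term, minus four times the down-degree contribution -/
noncomputable def dnT (n : ℕ) {m : ℕ} (μ : Fin m → ℕ) (i : Fin m) : ℚ :=
  if 0 < μ i ∧ Val n (dec μ i) then gam n i (μ i - 1) - 4 else 0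

/-- the telescoping potential -/
def Fp (n i v : ℕ) : ℚ := if v = 0 then (n : ℚ) - 1 else 2 * v + 2 * i

theorem upT_succ (n k : ℕ) (hk : 2 * k < n) (μ : Fin (k + 1) → ℕ) (h : Val n μ) (i : Fin k) :
    upT n μ i.succ = if μ i.succ + 2 ≤ μ i.castSucc then gam n (i + 1) (μ i.succ) else 0 := by
  have hi := i.2
  have hb := h.1 i.castSucc
  have hb2 := h.1 i.succ
  simp only [Fin.val_castSucc, Fin.val_succ] at hb hb2
  by_cases h1 : μ i.succ + 2 ≤ μ i.castSucc
  · rw [if_pos h1]
    unfold upT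
    by_cases h2 : μ i.succ + 1 ≤ n - 2 * ((i : ℕ) + 1)
    · rw [if_pos, Fin.val_succ]
      rw [Val_inc_iff n μ h]
      refine ⟨by simpa using h2, fun a ha => ?_⟩
      rcases lt_or_eq_of_le (show a ≤ i.castSucc from by
        rw [Fin.le_def]; rw [Fin.lt_def] at ha; simp at ha ⊢; omega) with h3 | h3
      · have := h.2 a _ h3
        omega
      · rw [h3]; omega
    · rw [if_neg]
      · have h3 : μ i.succ = n - 2 * ((i : ℕ) + 1) := by omega
        have h4 : μ i.succ ≠ 0 := by omega
        unfold gam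
        rw [if_neg h4, h3, Nat.cast_sub (by omega)]
        push_cast; ring
      · rw [Val_inc_iff n μ h]
        rintro ⟨h3, _⟩
        rw [Fin.val_succ] at h3
        exact h2 h3
  · rw [if_neg h1]
    unfold upT
    rw [if_neg]
    rw [Val_inc_iff n μ h]
    rintro ⟨_, h3⟩
    have := h3 i.castSucc (Fin.castSucc_lt_succ)
    omega

theorem dnT_castSucc (n k : ℕ) (μ : Fin (k + 1) → ℕ) (h : Val n μ) (i : Fin k) :
    dnT n μ i.castSucc = if 0 < μ i.castSucc ∧ (μ i.succ = 0 ∨ μ i.succ + 2 ≤ μ i.castSucc)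
      then gam n i (μ i.castSucc - 1) - 4 else 0 := by
  have key : 0 < μ i.castSucc → (Val n (dec μ i.castSucc) ↔
      (μ i.succ = 0 ∨ μ i.succ + 2 ≤ μ i.castSucc)) := by
    intro h0
    constructor
    · intro h2
      have := (Val_dec_iff n μ h _ h0).mp h2 i.succ (Fin.castSucc_lt_succ)
      omega
    · intro h1
      refine (Val_dec_iff n μ h _ h0).mpr fun b hb => ?_
      rcases lt_or_eq_of_le (show i.succ ≤ b from by
        rw [Fin.le_def]; rw [Fin.lt_def] at hb; simp at hb ⊢; omega) with h3 | h3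
      · have := h.2 _ b h3
        omega
      · rw [← h3]; omega
  unfold dnT
  by_cases h0 : 0 < μ i.castSucc
  · by_cases h1 : μ i.succ = 0 ∨ μ i.succ + 2 ≤ μ i.castSucc
    · rw [if_pos (⟨h0, (key h0).mpr h1⟩ : 0 < μ i.castSucc ∧ Val n (dec μ i.castSucc)),
        if_pos (⟨h0, h1⟩ : 0 < μ i.castSucc ∧ (μ i.succ = 0 ∨ μ i.succ + 2 ≤ μ i.castSucc)),
        Fin.val_castSucc]
    · rw [if_neg (fun h' : 0 < μ i.castSucc ∧ Val n (dec μ i.castSucc) => h1 ((key h0).mp h'.2)),
        if_neg (fun h' : 0 < μ i.castSucc ∧ (μ i.succ = 0 ∨ μ i.succ + 2 ≤ μ i.castSucc) =>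
          h1 h'.2)]
  · rw [if_neg (fun h' : 0 < μ i.castSucc ∧ Val n (dec μ i.castSucc) => h0 h'.1),
      if_neg (fun h' : 0 < μ i.castSucc ∧ (μ i.succ = 0 ∨ μ i.succ + 2 ≤ μ i.castSucc) => h0 h'.1)]

theorem pair_term (n k : ℕ) (hk : 2 * k < n) (μ : Fin (k + 1) → ℕ) (h : Val n μ) (i : Fin k) :
    dnT n μ i.castSucc - upT n μ i.succ
      = Fp n (i + 1) (μ i.succ) - Fp n i (μ i.castSucc) := by
  rw [upT_succ n k hk μ h, dnT_castSucc n k μ h]
  have hs := h.2 i.castSucc i.succ (Fin.castSucc_lt_succ)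
  generalize μ i.castSucc = a at *
  generalize μ i.succ = b at *
  rcases Nat.eq_zero_or_pos b with hb | hb
  · subst hb
    rcases Nat.eq_zero_or_pos a with ha | ha
    · subst ha
      simp [Fp]
    · rcases Nat.lt_or_ge a 2 with ha2 | ha2
      · have : a = 1 := by omega
        subst this
        rw [if_pos ⟨by norm_num, Or.inl rfl⟩, if_neg (by norm_num)]
        simp only [Fp, gam]
        norm_num
        ring
      · rw [if_pos ⟨ha, Or.inl rfl⟩, if_pos (by omega)]
        simp only [Fp, gam, if_true]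
        rw [if_neg (by omega), if_neg (by omega), Nat.cast_sub (by omega)]
        push_cast
        ring
  · rcases Nat.lt_or_ge a (b + 2) with h2 | h2
    · have h3 : a = b + 1 := by omega
      subst h3
      rw [if_neg (by omega), if_neg (by omega)]
      simp only [Fp]
      rw [if_neg (by omega), if_neg (by omega)]
      push_cast
      ring
    · rw [if_pos ⟨by omega, Or.inr h2⟩, if_pos h2]
      simp only [Fp, gam]
      rw [if_neg (by omega), if_neg (by omega), if_neg (by omega), if_neg (by omega),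
        Nat.cast_sub (by omega)]
      push_cast
      ring

theorem first_term (n k : ℕ) (hn : 1 ≤ n) (μ : Fin (k + 1) → ℕ) (h : Val n μ) :
    Fp n 0 (μ 0) + upT n μ 0 = 2 * n := by
  have hb := h.1 0
  simp only [Fin.val_zero, mul_zero, Nat.sub_zero] at hb
  have hup : upT n μ 0 = if μ 0 + 1 ≤ n then gam n 0 (μ 0) else 0 := by
    unfold upT
    by_cases h1 : μ 0 + 1 ≤ n
    · rw [if_pos h1, if_pos]
      · rfl
      · rw [Val_inc_iff n μ h]
        exact ⟨by simpa using h1, fun a ha => absurd ha (by simp)⟩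
    · rw [if_neg h1, if_neg]
      rw [Val_inc_iff n μ h]
      rintro ⟨h2, _⟩
      simp only [Fin.val_zero, mul_zero, Nat.sub_zero] at h2
      exact h1 h2
  rw [hup]
  by_cases h1 : μ 0 + 1 ≤ n
  · rw [if_pos h1]
    rcases Nat.eq_zero_or_pos (μ 0) with h0 | h0
    · simp only [Fp, gam, h0, if_true]
      push_cast; ring
    · simp only [Fp, gam]
      rw [if_neg (by omega), if_neg (by omega)]
      push_cast; ring
  · rw [if_neg h1]
    have h2 : μ 0 = n := by omega
    simp only [Fp, h2]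
    rw [if_neg (by omega)]
    push_cast; ring

theorem last_term (n k : ℕ) (μ : Fin (k + 1) → ℕ) (h : Val n μ) :
    Fp n k (μ (Fin.last k)) + dnT n μ (Fin.last k)
      = (n - 1) + (if 2 ≤ μ (Fin.last k) then (n : ℚ) - 2 * k - 1 else 0) := by
  have hdn : dnT n μ (Fin.last k) = if 0 < μ (Fin.last k) then gam n k (μ (Fin.last k) - 1) - 4
      else 0 := by
    unfold dnT
    by_cases h0 : 0 < μ (Fin.last k)
    · rw [if_pos h0, if_pos, Fin.val_last]
      exact ⟨h0, (Val_dec_iff n μ h _ h0).mpr fun b hb => absurd hb (not_lt.mpr (Fin.le_last b))⟩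
    · rw [if_neg h0, if_neg (fun h' => h0 h'.1)]
  rw [hdn]
  generalize μ (Fin.last k) = a
  rcases Nat.eq_zero_or_pos a with h0 | h0
  · subst h0
    simp [Fp]
  · rw [if_pos h0]
    rcases Nat.lt_or_ge a 2 with h2 | h2
    · have : a = 1 := by omega
      subst this
      rw [if_neg (by norm_num)]
      simp only [Fp, gam]
      norm_num
      ring
    · rw [if_pos h2]
      simp only [Fp, gam]
      rw [if_neg (by omega), if_neg (by omega), Nat.cast_sub (by omega)]
      push_cast
      ring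

theorem telescope (k : ℕ) (f : Fin (k + 1) → ℚ) :
    ∑ i : Fin k, (f i.succ - f i.castSucc) = f (Fin.last k) - f 0 := by
  induction k with
  | zero => simp
  | succ k ih =>
    rw [Fin.sum_univ_castSucc]
    have := ih (fun i => f i.castSucc)
    simp only [Fin.succ_castSucc] at this ⊢
    rw [this]
    simp

/-- **The pointwise identity.** -/
theorem pointwise (n k : ℕ) (hn : 1 ≤ n) (hk : 2 * k < n) (μ : Fin (k + 1) → ℕ) (h : Val n μ) :
    ∑ i, dnT n μ i - ∑ i, upT n μ i
      = -((n : ℚ) + 1) + (if 2 ≤ μ (Fin.last k) then (n : ℚ) - 2 * k - 1 else 0) := by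
  rw [Fin.sum_univ_castSucc (f := dnT n μ), Fin.sum_univ_succ (f := upT n μ)]
  have h1 := telescope k (fun i => Fp n i (μ i))
  have h2 : ∑ i : Fin k, (Fp n (i.succ : Fin (k + 1)) (μ i.succ)
        - Fp n (i.castSucc : Fin (k + 1)) (μ i.castSucc))
      = ∑ i : Fin k, dnT n μ i.castSucc - ∑ i : Fin k, upT n μ i.succ := by
    rw [← sum_sub_distrib]
    refine sum_congr rfl fun i _ => ?_
    rw [pair_term n k hk μ h i]
    simp
  rw [h2] at h1
  have h3 := first_term n k hn μ h
  have h4 := last_term n k μ h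
  simp only [Fin.val_last, Fin.val_zero] at h1
  linarith

end Pool.Agent.Run7.h559
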