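import Mathlib

set_option autoImplicit false

/-!
# Thrall's product formula for shifted standard tableaux: the recursion

`G κ` is Thrall's product `|κ|! / ∏ κ_i! * ∏_{i<j} (κ_i - κ_j)/(κ_i + κ_j)` (the pair factor being `1`
when `κ_j = 0`), and `G_rec` says that it satisfies the recursion of the number of standard shifted
tableaux.
-/

open Finset Polynomial

namespace Pool.Agent.Run7.h559

/-- the Lagrange identity behind Thrall's formula -/
theorem lagrange_aux {ι : Type*} [DecidableEq ι] (s : Finset ι) (hs : s.Nonempty) (x : ι → ℚ)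
    (hinj : Set.InjOn (fun i => (2 * x i - 1) ^ 2) (s : Set ι)) :
    ∑ j ∈ s, x j * ∏ i ∈ s.erase j,
        (((2 * x j - 1) ^ 2 - (2 * x i + 1) ^ 2) / ((2 * x j - 1) ^ 2 - (2 * x i - 1) ^ 2))
      = ∑ j ∈ s, x j := by
  classical
  set u : ι → ℚ := fun i => (2 * x i - 1) ^ 2 with hu
  set P : ℚ[X] := ∏ i ∈ s, (X - C ((2 * x i + 1) ^ 2)) with hP
  set Q : ℚ[X] := ∏ i ∈ s, (X - C (u i)) with hQ
  have hPm : P.Monic := monic_prod_X_sub_C _ _
  have hQm : Q.Monic := monic_prod_X_sub_C _ _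
  have hPd : P.degree = #s := by
    rw [hP, degree_prod]; simp only [degree_X_sub_C]; simp
  have hQd : Q.degree = #s := by
    rw [hQ, degree_prod]; simp only [degree_X_sub_C]; simp
  have hdeg : (P - Q).degree < #s := by
    rw [← hPd]
    refine degree_sub_lt_left (by rw [hPd, hQd]) hPm.ne_zero ?_
    rw [hPm.leadingCoeff, hQm.leadingCoeff]
  have hcard : 0 < #s := hs.card_pos
  have hco : (P - Q).coeff (#s - 1) = - 8 * ∑ j ∈ s, x j := by
    rw [coeff_sub, hP, hQ, prod_X_sub_C_coeff_card_pred _ _ hcard,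
      prod_X_sub_C_coeff_card_pred _ _ hcard, mul_sum, ← sum_neg_distrib, ← sum_neg_distrib,
      ← sum_sub_distrib]
    refine sum_congr rfl fun i _ => ?_
    simp only [hu]; ring
  have key := Lagrange.coeff_eq_sum (s := s) (v := u) hinj hdeg
  rw [hco] at key
  have h2 : ∀ j ∈ s, (P - Q).eval (u j) / ∏ i ∈ s.erase j, (u j - u i)
      = - 8 * (x j * ∏ i ∈ s.erase j,
        (((2 * x j - 1) ^ 2 - (2 * x i + 1) ^ 2) / ((2 * x j - 1) ^ 2 - (2 * x i - 1) ^ 2))) := by
    intro j hj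
    have hQ0 : Q.eval (u j) = 0 := by
      rw [hQ, eval_prod]
      exact prod_eq_zero hj (by simp)
    rw [eval_sub, hQ0, sub_zero, hP, eval_prod, ← mul_prod_erase s _ hj, prod_div_distrib]
    simp only [eval_sub, eval_X, eval_C, hu]
    ring
  rw [sum_congr rfl h2, ← mul_sum] at key
  linarith

/-- pair factor of Thrall's formula -/
noncomputable def r (a b : ℕ) : ℚ := if b = 0 then 1 else ((a : ℚ) - b) / (a + b)

/-- product over pairs -/
noncomputable def pairProd {m : ℕ} (F : Fin m → Fin m → ℚ) : ℚ :=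
  ∏ a, ∏ b, if a < b then F a b else 1

/-- Thrall's product -/
noncomputable def G {m : ℕ} (κ : Fin m → ℕ) : ℚ :=
  ((∑ i, κ i).factorial : ℚ) / (∏ i, ((κ i).factorial : ℚ)) * pairProd (fun a b => r (κ a) (κ b))

theorem pairProd_split {m : ℕ} (F : Fin m → Fin m → ℚ) (j : Fin m) :
    pairProd F = (∏ a ∈ univ.erase j, ∏ b ∈ univ.erase j, if a < b then F a b else 1) *
      ∏ i ∈ univ.erase j, (if j < i then F j i else F i j) := by
  unfold pairProd
  rw [← mul_prod_erase univ _ (mem_univ j)]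
  have h1 : (∏ b, if j < b then F j b else 1) = ∏ b ∈ univ.erase j, if j < b then F j b else 1 := by
    rw [← mul_prod_erase univ _ (mem_univ j)]
    simp
  have h2 : ∀ a ∈ univ.erase j, (∏ b, if a < b then F a b else 1)
      = (if a < j then F a j else 1) * ∏ b ∈ univ.erase j, if a < b then F a b else 1 := by
    intro a _
    rw [← mul_prod_erase univ _ (mem_univ j)]
  rw [prod_congr rfl h2, prod_mul_distrib, h1, ← mul_assoc, ← prod_mul_distrib, mul_comm]
  congr 1
  refine prod_congr rfl fun i hi => ?_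
  have hij : i ≠ j := (mem_erase.mp hi).1
  rcases lt_or_gt_of_ne hij with h | h
  · simp [h, not_lt_of_gt h]
  · simp [h, not_lt_of_gt h]

/-- strictness for vectors whose zero entries come last -/
def Str {m : ℕ} (κ : Fin m → ℕ) : Prop := ∀ i j : Fin m, i < j → κ j = 0 ∨ κ j < κ i

/-- ratio factor -/
noncomputable def rho (a b : ℕ) : ℚ :=
  if b = 0 then 1 else
    (((a : ℚ) + b) * (a - b - 1)) / ((a - b) * (a + b - 1))

theorem ratio_pair {m : ℕ} (κ : Fin m → ℕ) (hκ : Str κ) (j : Fin m) (hj : 0 < κ j) (i : Fin m)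
    (hij : i ≠ j) :
    (if j < i then r (κ j - 1) (κ i) else r (κ i) (κ j - 1))
      = (if j < i then r (κ j) (κ i) else r (κ i) (κ j)) * rho (κ j) (κ i) := by
  have hcast : ((κ j - 1 : ℕ) : ℚ) = (κ j : ℚ) - 1 := by
    rw [Nat.cast_sub hj]; simp
  rcases lt_or_gt_of_ne hij with h | h
  · -- i < j
    have h' := hκ i j h
    have hlt : κ j < κ i := by omega
    rw [if_neg (not_lt_of_gt h), if_neg (not_lt_of_gt h)]
    have hi0 : κ i ≠ 0 := by omega
    have hj0 : κ j ≠ 0 := by omega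
    unfold rho r
    rw [if_neg hi0, if_neg hj0]
    have e1 : (κ j : ℚ) < κ i := by exact_mod_cast hlt
    have e2 : (1 : ℚ) ≤ κ j := by exact_mod_cast hj
    have d1 : (κ i : ℚ) + κ j ≠ 0 := by positivity
    have d2 : (κ j : ℚ) - κ i ≠ 0 := sub_ne_zero.mpr (ne_of_lt e1)
    have d3 : (κ j : ℚ) + κ i - 1 ≠ 0 := by
      have : (0 : ℚ) < (κ j : ℚ) + κ i - 1 := by linarith
      exact ne_of_gt this
    by_cases h1 : κ j - 1 = 0
    · rw [if_pos h1]
      have hj1 : κ j = 1 := by omega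
      rw [hj1] at e1 d1 d2 d3 ⊢
      push_cast at e1 d1 d2 d3 ⊢
      have d4 : (κ i : ℚ) ≠ 0 := by
        have : (0 : ℚ) < κ i := by linarith
        exact ne_of_gt this
      rw [div_mul_div_comm, eq_comm, div_eq_one_iff_eq (mul_ne_zero d1 (mul_ne_zero d2 d3))]
      ring
    · rw [if_neg h1, hcast]
      have d4 : (κ i : ℚ) + ((κ j : ℚ) - 1) ≠ 0 := by
        have : (0 : ℚ) < (κ i : ℚ) + ((κ j : ℚ) - 1) := by linarith
        exact ne_of_gt this
      field_simp
      ring
  · -- j < i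
    rw [if_pos h, if_pos h]
    rcases hκ j i h with h0 | hlt
    · unfold r rho; simp [h0]
    · by_cases h0 : κ i = 0
      · unfold r rho; simp [h0]
      · unfold r rho
        rw [if_neg h0, if_neg h0, if_neg h0, hcast]
        have e1 : (κ i : ℚ) < κ j := by exact_mod_cast hlt
        have e2 : (1 : ℚ) ≤ κ i := by exact_mod_cast Nat.pos_of_ne_zero h0
        have d1 : (κ j : ℚ) + κ i ≠ 0 := by positivity
        have d2 : (κ j : ℚ) - κ i ≠ 0 := sub_ne_zero.mpr (ne_of_gt e1)
        have d3 : (κ j : ℚ) + κ i - 1 ≠ 0 := by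
          have : (0 : ℚ) < (κ j : ℚ) + κ i - 1 := by linarith
          exact ne_of_gt this
        have d4 : (κ j : ℚ) - 1 + κ i ≠ 0 := by
          have : (0 : ℚ) < (κ j : ℚ) - 1 + κ i := by linarith
          exact ne_of_gt this
        field_simp
        ring

theorem G_update {m : ℕ} (κ : Fin m → ℕ) (hκ : Str κ) (j : Fin m) (hj : 0 < κ j) :
    G (Function.update κ j (κ j - 1)) * (∑ i, κ i : ℕ)
      = G κ * ((κ j : ℚ) * ∏ i ∈ univ.erase j, rho (κ j) (κ i)) := by
  have hsum : ∑ i, Function.update κ j (κ j - 1) i + 1 = ∑ i, κ i := by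
    rw [← add_sum_erase univ _ (mem_univ j), ← add_sum_erase univ κ (mem_univ j)]
    have : ∑ i ∈ univ.erase j, Function.update κ j (κ j - 1) i = ∑ i ∈ univ.erase j, κ i :=
      sum_congr rfl fun i hi => by rw [Function.update_of_ne (mem_erase.mp hi).1]
    rw [this, Function.update_self]; omega
  have hfac : (∏ i, ((κ i).factorial : ℚ))
      = (κ j : ℚ) * ∏ i, ((Function.update κ j (κ j - 1) i).factorial : ℚ) := by
    rw [← mul_prod_erase univ (fun i => ((κ i).factorial : ℚ)) (mem_univ j),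
      ← mul_prod_erase univ (fun i => ((Function.update κ j (κ j - 1) i).factorial : ℚ)) (mem_univ j)]
    have : ∏ i ∈ univ.erase j, ((Function.update κ j (κ j - 1) i).factorial : ℚ)
        = ∏ i ∈ univ.erase j, ((κ i).factorial : ℚ) :=
      prod_congr rfl fun i hi => by rw [Function.update_of_ne (mem_erase.mp hi).1]
    rw [this, Function.update_self]
    have h3 : (κ j).factorial = κ j * (κ j - 1).factorial := (Nat.mul_factorial_pred hj.ne').symm
    rw [h3]; push_cast; ring
  have hpair : pairProd (fun a b => r (Function.update κ j (κ j - 1) a) (Function.update κ j (κ j - 1) b))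
      = pairProd (fun a b => r (κ a) (κ b)) * ∏ i ∈ univ.erase j, rho (κ j) (κ i) := by
    rw [pairProd_split _ j, pairProd_split (fun a b => r (κ a) (κ b)) j, mul_assoc]
    have q1 : (∏ a ∈ univ.erase j, ∏ b ∈ univ.erase j, if a < b then
          r (Function.update κ j (κ j - 1) a) (Function.update κ j (κ j - 1) b) else (1 : ℚ))
        = ∏ a ∈ univ.erase j, ∏ b ∈ univ.erase j, if a < b then r (κ a) (κ b) else 1 := by
      refine prod_congr rfl fun a ha => prod_congr rfl fun b hb => ?_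
      rw [Function.update_of_ne (mem_erase.mp ha).1, Function.update_of_ne (mem_erase.mp hb).1]
    have q2 : (∏ i ∈ univ.erase j, if j < i then
          r (Function.update κ j (κ j - 1) j) (Function.update κ j (κ j - 1) i)
          else r (Function.update κ j (κ j - 1) i) (Function.update κ j (κ j - 1) j))
        = ∏ i ∈ univ.erase j, (if j < i then r (κ j) (κ i) else r (κ i) (κ j)) * rho (κ j) (κ i) := by
      refine prod_congr rfl fun i hi => ?_
      rw [Function.update_of_ne (mem_erase.mp hi).1, Function.update_self]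
      exact ratio_pair κ hκ j hj i (mem_erase.mp hi).1
    rw [q1, q2, prod_mul_distrib]
  unfold G
  rw [hpair, ← hsum, hfac, Nat.factorial_succ]
  have hn : ∀ i, ((Function.update κ j (κ j - 1) i).factorial : ℚ) ≠ 0 := fun i => by positivity
  have hn' : ∏ i, ((Function.update κ j (κ j - 1) i).factorial : ℚ) ≠ 0 :=
    prod_ne_zero_iff.mpr fun i _ => hn i
  have hj' : (κ j : ℚ) ≠ 0 := by positivity
  push_cast
  field_simp

theorem rho_sum {m : ℕ} (κ : Fin m → ℕ) (hκ : Str κ) :
    ∑ j, ((κ j : ℚ) * ∏ i ∈ univ.erase j, rho (κ j) (κ i)) = ((∑ i, κ i : ℕ) : ℚ) := by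
  classical
  set A : Finset (Fin m) := univ.filter (fun i => κ i ≠ 0) with hA
  have hsub : A ⊆ univ := filter_subset _ _
  have e1 : ∑ j, ((κ j : ℚ) * ∏ i ∈ univ.erase j, rho (κ j) (κ i))
      = ∑ j ∈ A, ((κ j : ℚ) * ∏ i ∈ univ.erase j, rho (κ j) (κ i)) := by
    symm
    refine sum_subset hsub fun j _ hj => ?_
    have : κ j = 0 := by simpa [hA] using hj
    simp [this]
  have e2 : ((∑ i, κ i : ℕ) : ℚ) = ∑ j ∈ A, (κ j : ℚ) := by
    push_cast
    symm
    refine sum_subset hsub fun j _ hj => ?_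
    have : κ j = 0 := by simpa [hA] using hj
    simp [this]
  rw [e1, e2]
  rcases A.eq_empty_or_nonempty with h0 | hne
  · simp [h0]
  have hdist : ∀ i ∈ A, ∀ j ∈ A, κ i = κ j → i = j := by
    intro i hi j hj hij
    by_contra hne
    have hi0 : κ i ≠ 0 := (mem_filter.mp hi).2
    have hj0 : κ j ≠ 0 := (mem_filter.mp hj).2
    rcases lt_or_gt_of_ne hne with h | h
    · rcases hκ i j h with h | h <;> omega
    · rcases hκ j i h with h | h <;> omega
  have hinj : Set.InjOn (fun i => (2 * (κ i : ℚ) - 1) ^ 2) (A : Set (Fin m)) := by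
    intro i hi j hj hij
    have hi0 : κ i ≠ 0 := (mem_filter.mp hi).2
    have hj0 : κ j ≠ 0 := (mem_filter.mp hj).2
    have p1 : (1 : ℚ) ≤ κ i := by exact_mod_cast Nat.pos_of_ne_zero hi0
    have p2 : (1 : ℚ) ≤ κ j := by exact_mod_cast Nat.pos_of_ne_zero hj0
    have h : ((κ i : ℚ) - κ j) * ((κ i : ℚ) + κ j - 1) = 0 := by
      have h0 : (2 * (κ i : ℚ) - 1) ^ 2 = (2 * (κ j : ℚ) - 1) ^ 2 := hij
      linear_combination (1 / 4) * h0
    rcases mul_eq_zero.mp h with h | h
    · exact hdist i hi j hj (by exact_mod_cast sub_eq_zero.mp h)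
    · linarith
  rw [← lagrange_aux A hne (fun i => (κ i : ℚ)) hinj]
  refine sum_congr rfl fun j hj => ?_
  congr 1
  have hj0 : κ j ≠ 0 := (mem_filter.mp hj).2
  have e3 : ∏ i ∈ univ.erase j, rho (κ j) (κ i) = ∏ i ∈ A.erase j, rho (κ j) (κ i) := by
    symm
    refine prod_subset (erase_subset_erase _ hsub) fun i hi hi' => ?_
    have : κ i = 0 := by
      by_contra h
      exact hi' (mem_erase.mpr ⟨(mem_erase.mp hi).1, by simp [hA, h]⟩)
    simp [rho, this]
  rw [e3]
  refine prod_congr rfl fun i hi => ?_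
  have hi0 : κ i ≠ 0 := (mem_filter.mp (mem_erase.mp hi).2).2
  have hne' : κ i ≠ κ j := fun h => (mem_erase.mp hi).1 (hdist i (mem_erase.mp hi).2 j hj h)
  have p1 : (1 : ℚ) ≤ κ i := by exact_mod_cast Nat.pos_of_ne_zero hi0
  have p2 : (1 : ℚ) ≤ κ j := by exact_mod_cast Nat.pos_of_ne_zero hj0
  have d1 : (κ j : ℚ) - κ i ≠ 0 := sub_ne_zero.mpr (by exact_mod_cast hne'.symm)
  have d2 : (κ j : ℚ) + κ i - 1 ≠ 0 := by
    have : (0 : ℚ) < (κ j : ℚ) + κ i - 1 := by linarith
    exact ne_of_gt this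
  have d3 : (2 * (κ j : ℚ) - 1) ^ 2 - (2 * (κ i : ℚ) - 1) ^ 2
      = 4 * (((κ j : ℚ) - κ i) * ((κ j : ℚ) + κ i - 1)) := by ring
  have d4 : (2 * (κ j : ℚ) - 1) ^ 2 - (2 * (κ i : ℚ) + 1) ^ 2
      = 4 * (((κ j : ℚ) + κ i) * ((κ j : ℚ) - κ i - 1)) := by ring
  rw [d3, d4, rho, if_neg hi0, mul_div_mul_left _ _ (by norm_num : (4 : ℚ) ≠ 0)]

/-- **Thrall's recursion.** -/
theorem G_rec {m : ℕ} (κ : Fin m → ℕ) (hκ : Str κ) (h0 : ∑ i, κ i ≠ 0) :
    ∑ j, (if 0 < κ j then G (Function.update κ j (κ j - 1)) else 0) = G κ := by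
  have hs : ((∑ i, κ i : ℕ) : ℚ) ≠ 0 := by exact_mod_cast h0
  have h1 : (∑ j, (if 0 < κ j then G (Function.update κ j (κ j - 1)) else 0)) * ((∑ i, κ i : ℕ) : ℚ)
      = G κ * ((∑ i, κ i : ℕ) : ℚ) := by
    rw [sum_mul]
    conv_rhs => rw [← rho_sum κ hκ, mul_sum]
    refine sum_congr rfl fun j _ => ?_
    by_cases hj : 0 < κ j
    · rw [if_pos hj, G_update κ hκ j hj]
    · have : κ j = 0 := by omega
      simp [this]
  exact mul_right_cancel₀ hs h1

end Pool.Agent.Run7.h559
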